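import Mathlib

/-!
Definitions for sparse representatives in the Nottingham group over `F_2`.
-/

namespace Pool.Agent.Hhelper87.Nott

open PowerSeries

/-- The words `w_1^{l_1} v_1 w_2^{l_2} v_2 ... w_r^{l_r} v_r` (`l_i ≥ 0`) attached to a list of
pairs of words `(w_1, v_1), ..., (w_r, v_r)`. -/
def wordsOf : List (List ℕ × List ℕ) → Set (List ℕ)
  | [] => {[]}
  | (w, v) :: bs =>
      {x | ∃ l : ℕ, ∃ y ∈ wordsOf bs, x = (List.replicate l w).flatten ++ v ++ y}

/-- `A` is a simple sparse set: the set of integers whose base-2 expansion, read from the least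
significant digit and without leading zeros, is a word `v_0 w_1^{l_1} v_1 ... w_r^{l_r} v_r` with
`l_1, ..., l_r ≥ 0`. Moreover each of these words is required to be such an expansion. -/
def IsSimpleSparse (A : Set ℕ) : Prop :=
  ∃ (v₀ : List ℕ) (bs : List (List ℕ × List ℕ)),
    (∀ y ∈ wordsOf bs, ∃ n, Nat.digits 2 n = v₀ ++ y) ∧
    A = {n | ∃ y ∈ wordsOf bs, Nat.digits 2 n = v₀ ++ y}

/-- A finite union of pairwise disjoint simple sparse sets. -/
def IsSparseSet (A : Set ℕ) : Prop :=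
  ∃ (k : ℕ) (B : Fin k → Set ℕ), (∀ i, IsSimpleSparse (B i)) ∧
    (∀ i j, i ≠ j → Disjoint (B i) (B j)) ∧ A = ⋃ i, B i

/-- A power series over `F_2` is sparse if its support is a sparse set. -/
def IsSparse (σ : PowerSeries (ZMod 2)) : Prop := IsSparseSet {k | coeff k σ = 1}

/-- Membership in the group `N(F_2)`: power series `t + a_2 t^2 + ...` over `F_2`. -/
def InNott (f : PowerSeries (ZMod 2)) : Prop := coeff 0 f = 0 ∧ coeff 1 f = 1

/-- Composition `σ ∘ τ = σ(τ(t))`. -/
noncomputable def comp (σ τ : PowerSeries (ZMod 2)) : PowerSeries (ZMod 2) := subst τ σ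

/-- `σ'` is conjugate to `σ` in `N(F_2)`: `σ' = χ ∘ σ ∘ χ⁻¹` for some `χ` in `N(F_2)`. -/
def Conjugate (σ σ' : PowerSeries (ZMod 2)) : Prop :=
  ∃ χ ψ : PowerSeries (ZMod 2), InNott χ ∧ InNott ψ ∧ comp χ ψ = X ∧ comp ψ χ = X ∧
    σ' = comp (comp χ σ) ψ

end Pool.Agent.Hhelper87.Nott
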