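import Mathlib
import Pool.Agent.Hhelper87.NottDefs

/-!
Sparse sets of natural numbers: closure lemmas.
-/

namespace Pool.Agent.Hhelper87.Nott

/-- prepend the base `2^r` digit `d`. -/
def pre (r d a : ℕ) : ℕ := d + 2 ^ r * a

inductive Simple (r : ℕ) : Set ℕ → Prop
  | single (a : ℕ) (ha : 0 < a) : Simple r {a}
  | step {A : Set ℕ} (hA : Simple r A) (e : ℕ) (he : e < 2 ^ r) :
      Simple r {n | ∃ a ∈ A, n = pre r e a}
  | loop {A : Set ℕ} (hA : Simple r A) (d : ℕ) (hd : d < 2 ^ r) :
      Simple r {n | ∃ a ∈ A, ∃ j, n = (pre r d)^[j] a}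

def word (r e : ℕ) : List ℕ := Nat.digits 2 e ++ List.replicate (r - (Nat.digits 2 e).length) 0

lemma digits_pre {r e a : ℕ} (he : e < 2 ^ r) (ha : 0 < a) :
    Nat.digits 2 (pre r e a) = word r e ++ Nat.digits 2 a := by
  have hlen : (Nat.digits 2 e).length ≤ r := by
    rw [Nat.digits_length_le_iff (by norm_num)]
    exact he
  have := Nat.digits_append_zeroes_append_digits (b := 2) (k := r - (Nat.digits 2 e).length)
    (m := a) (n := e) (by norm_num) ha
  rw [word, this, pre, Nat.add_sub_cancel' hlen]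

lemma pre_pos {r e a : ℕ} (ha : 0 < a) : 0 < pre r e a := by
  unfold pre
  positivity

lemma pre_iter_pos {r d a : ℕ} (ha : 0 < a) (j : ℕ) : 0 < (pre r d)^[j] a := by
  induction j with
  | zero => simpa using ha
  | succ j ih =>
    rw [Function.iterate_succ_apply']
    exact pre_pos ih

lemma digits_pre_iter {r d a : ℕ} (hd : d < 2 ^ r) (ha : 0 < a) (j : ℕ) :
    Nat.digits 2 ((pre r d)^[j] a) = (List.replicate j (word r d)).flatten ++ Nat.digits 2 a := by
  induction j with
  | zero => simp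
  | succ j ih =>
    rw [Function.iterate_succ_apply', digits_pre hd (pre_iter_pos ha j), ih]
    simp [List.replicate_succ]

lemma Simple.pos {r : ℕ} {A : Set ℕ} (h : Simple r A) : ∀ a ∈ A, 0 < a := by
  induction h with
  | single a ha =>
    intro b hb
    rw [Set.mem_singleton_iff] at hb
    omega
  | step hA e he ih =>
    rintro b ⟨a, ha, rfl⟩
    exact pre_pos (ih a ha)
  | loop hA d hd ih =>
    rintro b ⟨a, ha, j, rfl⟩
    exact pre_iter_pos (ih a ha) j

lemma Simple.words {r : ℕ} {A : Set ℕ} (h : Simple r A) :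
    ∃ (v₀ : List ℕ) (bs : List (List ℕ × List ℕ)),
      (∀ y ∈ wordsOf bs, ∃ n ∈ A, Nat.digits 2 n = v₀ ++ y) ∧
      (∀ n ∈ A, ∃ y ∈ wordsOf bs, Nat.digits 2 n = v₀ ++ y) := by
  induction h with
  | single a ha =>
    refine ⟨Nat.digits 2 a, [], ?_, ?_⟩
    · intro y hy
      have : y = [] := by simpa [wordsOf] using hy
      subst this
      exact ⟨a, rfl, by simp⟩
    · intro n hn
      rw [Set.mem_singleton_iff] at hn
      subst hn
      exact ⟨[], by simp [wordsOf], by simp⟩
  | step hA e he ih =>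
    obtain ⟨v₀, bs, h1, h2⟩ := ih
    refine ⟨word r e ++ v₀, bs, ?_, ?_⟩
    · intro y hy
      obtain ⟨n, hn, hd⟩ := h1 y hy
      exact ⟨pre r e n, ⟨n, hn, rfl⟩, by rw [digits_pre he (hA.pos n hn), hd, List.append_assoc]⟩
    · rintro n ⟨a, ha, rfl⟩
      obtain ⟨y, hy, hd⟩ := h2 a ha
      exact ⟨y, hy, by rw [digits_pre he (hA.pos a ha), hd, List.append_assoc]⟩
  | loop hA d hd ih =>
    obtain ⟨v₀, bs, h1, h2⟩ := ih
    refine ⟨[], (word r d, v₀) :: bs, ?_, ?_⟩
    · rintro y ⟨l, z, hz, rfl⟩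
      obtain ⟨n, hn, hdig⟩ := h1 z hz
      refine ⟨(pre r d)^[l] n, ⟨n, hn, l, rfl⟩, ?_⟩
      rw [digits_pre_iter hd (hA.pos n hn), hdig]
      simp
    · rintro n ⟨a, ha, j, rfl⟩
      obtain ⟨z, hz, hdig⟩ := h2 a ha
      refine ⟨_, ⟨j, z, hz, rfl⟩, ?_⟩
      rw [digits_pre_iter hd (hA.pos a ha), hdig]
      simp

lemma Simple.isSimpleSparse {r : ℕ} {A : Set ℕ} (h : Simple r A) : IsSimpleSparse A := by
  obtain ⟨v₀, bs, h1, h2⟩ := h.words
  refine ⟨v₀, bs, ?_, ?_⟩
  · intro y hy
    obtain ⟨n, -, hn⟩ := h1 y hy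
    exact ⟨n, hn⟩
  · ext n
    constructor
    · intro hn
      exact h2 n hn
    · rintro ⟨y, hy, hn⟩
      obtain ⟨n', hn', hd⟩ := h1 y hy
      have : n = n' := by
        apply (Nat.digits_inj_iff (b := 2)).mp
        rw [hn, hd]
      rwa [this]

lemma isSimpleSparse_zero : IsSimpleSparse {0} := by
  refine ⟨[], [], ?_, ?_⟩
  · intro y hy
    have : y = [] := by simpa [wordsOf] using hy
    subst this
    exact ⟨0, by simp⟩
  · ext n
    simp [wordsOf, Nat.digits_eq_nil_iff_eq_zero]

/-- internal notion of sparse set, base `2^r`. -/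
def Sp (r : ℕ) (A : Set ℕ) : Prop :=
  ∃ (ι : Type) (_ : Finite ι) (B : ι → Set ℕ), (∀ i, Simple r (B i) ∨ B i = {0}) ∧
    (∀ i j, i ≠ j → Disjoint (B i) (B j)) ∧ A = ⋃ i, B i

lemma Sp.isSparseSet {r : ℕ} {A : Set ℕ} (h : Sp r A) : IsSparseSet A := by
  obtain ⟨ι, hι, B, hB, hdis, rfl⟩ := h
  obtain ⟨k, ⟨e⟩⟩ := Finite.exists_equiv_fin ι
  refine ⟨k, fun i => B (e.symm i), ?_, ?_, ?_⟩
  · intro i
    rcases hB (e.symm i) with h | h
    · exact h.isSimpleSparse
    · simp only [h]
      exact isSimpleSparse_zero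
  · intro i j hij
    exact hdis _ _ (fun h => hij (e.symm.injective h))
  · ext n
    simp only [Set.mem_iUnion]
    constructor
    · rintro ⟨i, hi⟩
      exact ⟨e i, by simpa using hi⟩
    · rintro ⟨i, hi⟩
      exact ⟨e.symm i, hi⟩

lemma Sp.iUnion {r : ℕ} {κ : Type} [Finite κ] {A : κ → Set ℕ} (h : ∀ k, Sp r (A k))
    (hd : ∀ i j, i ≠ j → Disjoint (A i) (A j)) : Sp r (⋃ k, A k) := by
  choose ι hι B hB hdis hA using h
  refine ⟨Σ k, ι k, inferInstance, fun x => B x.1 x.2, fun x => hB x.1 x.2, ?_, ?_⟩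
  · rintro ⟨k, i⟩ ⟨k', i'⟩ hne
    by_cases hk : k = k'
    · subst hk
      exact hdis k i i' (fun h => hne (by rw [h]))
    · have h1 : B k i ⊆ A k := by
        rw [hA k]
        exact Set.subset_iUnion (B k) i
      have h2 : B k' i' ⊆ A k' := by
        rw [hA k']
        exact Set.subset_iUnion (B k') i'
      exact (hd k k' hk).mono h1 h2
  · ext n
    simp only [Set.mem_iUnion, Sigma.exists]
    constructor
    · rintro ⟨k, hk⟩
      rw [hA k] at hk
      obtain ⟨i, hi⟩ := Set.mem_iUnion.mp hk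
      exact ⟨k, i, hi⟩
    · rintro ⟨k, i, hi⟩
      refine ⟨k, ?_⟩
      rw [hA k]
      exact Set.mem_iUnion.mpr ⟨i, hi⟩

lemma Sp.union {r : ℕ} {A B : Set ℕ} (hA : Sp r A) (hB : Sp r B) (hd : Disjoint A B) :
    Sp r (A ∪ B) := by
  have := Sp.iUnion (r := r) (κ := Bool) (A := fun b => if b then A else B)
    (by intro b; cases b <;> simp [hA, hB])
    (by
      intro i j hij
      cases i <;> cases j <;> simp_all [disjoint_comm])
  convert this using 1
  ext n
  simp [or_comm]

lemma Sp.empty {r : ℕ} : Sp r ∅ :=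
  ⟨Empty, inferInstance, fun i => i.elim, fun i => i.elim, fun i => i.elim, by simp⟩

lemma Sp.of_simple {r : ℕ} {A : Set ℕ} (h : Simple r A) : Sp r A :=
  ⟨Unit, inferInstance, fun _ => A, fun _ => Or.inl h, fun i j hij => (hij rfl).elim,
    by simp [Set.iUnion_const]⟩

lemma Sp.zero {r : ℕ} : Sp r {0} :=
  ⟨Unit, inferInstance, fun _ => {0}, fun _ => Or.inr rfl, fun i j hij => (hij rfl).elim,
    by simp⟩

lemma pre_inj {r e e' a a' : ℕ} (he : e < 2 ^ r) (he' : e' < 2 ^ r)
    (h : pre r e a = pre r e' a') : e = e' ∧ a = a' := by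
  unfold pre at h
  have h1 : (e + 2 ^ r * a) % 2 ^ r = e := by
    rw [Nat.add_mul_mod_self_left, Nat.mod_eq_of_lt he]
  have h2 : (e' + 2 ^ r * a') % 2 ^ r = e' := by
    rw [Nat.add_mul_mod_self_left, Nat.mod_eq_of_lt he']
  have h3 : e = e' := by rw [← h1, h, h2]
  subst h3
  refine ⟨rfl, ?_⟩
  have : 2 ^ r * a = 2 ^ r * a' := by omega
  exact Nat.eq_of_mul_eq_mul_left (by positivity) this

lemma pre_iter_inj {r d e e' a a' : ℕ} (hd : d < 2 ^ r) (he : e < 2 ^ r) (he' : e' < 2 ^ r)
    (hed : e ≠ d) (hed' : e' ≠ d) :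
    ∀ j j' : ℕ, (pre r d)^[j] (pre r e a) = (pre r d)^[j'] (pre r e' a') →
      e = e' ∧ a = a' := by
  intro j
  induction j with
  | zero =>
    intro j' h
    cases j' with
    | zero => exact pre_inj he he' h
    | succ j' =>
      rw [Function.iterate_succ_apply'] at h
      exact (hed (pre_inj he hd h).1).elim
  | succ j ih =>
    intro j' h
    cases j' with
    | zero =>
      rw [Function.iterate_succ_apply'] at h
      exact (hed' (pre_inj hd he' h).1.symm).elim
    | succ j' =>
      rw [Function.iterate_succ_apply', Function.iterate_succ_apply'] at h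
      exact ih j' (pre_inj hd hd h).2

/-- The transform `T`. -/
def TT (r e d : ℕ) (B : Set ℕ) : Set ℕ := {n | ∃ a ∈ B, ∃ j, n = (pre r d)^[j] (pre r e a)}

lemma TT_disjoint {r d e e' : ℕ} (hd : d < 2 ^ r) (he : e < 2 ^ r) (he' : e' < 2 ^ r)
    (hed : e ≠ d) (hed' : e' ≠ d) {B B' : Set ℕ} (h : e ≠ e' ∨ Disjoint B B') :
    Disjoint (TT r e d B) (TT r e' d B') := by
  rw [Set.disjoint_left]
  rintro n ⟨a, ha, j, rfl⟩ ⟨a', ha', j', h'⟩
  obtain ⟨h1, h2⟩ := pre_iter_inj hd he he' hed hed' j j' h'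
  rcases h with h | h
  · exact h h1
  · subst h2
    exact Set.disjoint_left.mp h ha ha'

lemma Sp.of_TT {r d e : ℕ} (hd : d < 2 ^ r) (he : e < 2 ^ r) (hed : e ≠ d) {B : Set ℕ}
    (hB : Sp r B) : Sp r (TT r e d B) := by
  obtain ⟨ι, hι, C, hC, hdis, rfl⟩ := hB
  have h1 : TT r e d (⋃ i, C i) = ⋃ i, TT r e d (C i) := by
    ext n
    simp only [TT, Set.mem_iUnion, Set.mem_ofPred_eq]
    constructor
    · rintro ⟨a, ⟨i, hi⟩, j, rfl⟩
      exact ⟨i, a, hi, j, rfl⟩
    · rintro ⟨i, a, hi, j, rfl⟩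
      exact ⟨a, ⟨i, hi⟩, j, rfl⟩
  rw [h1]
  apply Sp.iUnion
  · intro i
    rcases hC i with h | h
    · have := (h.step e he).loop d hd
      apply Sp.of_simple
      convert this using 1
      ext n
      simp only [TT, Set.mem_ofPred_eq]
      constructor
      · rintro ⟨a, ha, j, rfl⟩
        exact ⟨_, ⟨a, ha, rfl⟩, j, rfl⟩
      · rintro ⟨_, ⟨a, ha, rfl⟩, j, rfl⟩
        exact ⟨a, ha, j, rfl⟩
    · rw [h]
      by_cases he0 : e = 0
      · subst he0
        have hd0 : 0 < d := Nat.pos_of_ne_zero (fun h => hed h.symm)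
        have hs := (Simple.single (r := r) d hd0).loop d hd
        have hdj : Disjoint ({0} : Set ℕ) {n | ∃ a ∈ ({d} : Set ℕ), ∃ j, n = (pre r d)^[j] a} := by
          rw [Set.disjoint_left]
          intro n hn hn'
          have := hs.pos n hn'
          rw [Set.mem_singleton_iff] at hn
          omega
        have := (Sp.zero (r := r)).union (Sp.of_simple hs) hdj
        convert this using 1
        ext n
        simp only [TT, Set.mem_ofPred_eq, Set.mem_union, Set.mem_singleton_iff, exists_eq_left]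
        constructor
        · rintro ⟨j, rfl⟩
          cases j with
          | zero => left; simp [pre]
          | succ j =>
            right
            refine ⟨j, ?_⟩
            rw [Function.iterate_succ_apply]
            simp [pre]
        · rintro (rfl | ⟨j, rfl⟩)
          · exact ⟨0, by simp [pre]⟩
          · refine ⟨j + 1, ?_⟩
            rw [Function.iterate_succ_apply]
            simp [pre]
      · have hs := (Simple.single (r := r) e (Nat.pos_of_ne_zero he0)).loop d hd
        apply Sp.of_simple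
        convert hs using 1
        ext n
        simp [TT, pre]
  · intro i j hij
    exact TT_disjoint hd he he hed hed (Or.inr (hdis i j hij))

/-- Loop lemma. -/
lemma Sp.of_loop {r d : ℕ} (hr : 0 < r) (hd : d < 2 ^ r) {A : Set ℕ}
    (hA : ∀ a, pre r d a ∈ A ↔ a ∈ A)
    (hE : ∀ e, e < 2 ^ r → e ≠ d → Sp r {a | pre r e a ∈ A}) : Sp r A := by
  have hN : 2 ≤ 2 ^ r := by
    calc 2 = 2 ^ 1 := rfl
      _ ≤ 2 ^ r := Nat.pow_le_pow_right (by norm_num) hr
  -- the union of T's
  have hU : Sp r (⋃ e : {e : Fin (2 ^ r) // e.1 ≠ d}, TT r e.1.1 d {a | pre r e.1.1 a ∈ A}) := by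
    apply Sp.iUnion
    · intro e
      exact Sp.of_TT hd e.1.2 e.2 (hE _ e.1.2 e.2)
    · intro e e' hee
      refine TT_disjoint hd e.1.2 e'.1.2 e.2 e'.2 (Or.inl ?_)
      intro h
      exact hee (Subtype.ext (Fin.ext h))
  have hiter : ∀ j a, (pre r d)^[j] a ∈ A ↔ a ∈ A := by
    intro j
    induction j with
    | zero => intro a; simp
    | succ j ih =>
      intro a
      rw [Function.iterate_succ_apply', hA, ih]
  have hsub : (⋃ e : {e : Fin (2 ^ r) // e.1 ≠ d}, TT r e.1.1 d {a | pre r e.1.1 a ∈ A}) ⊆ A := by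
    intro n hn
    obtain ⟨e, a, ha, j, rfl⟩ := Set.mem_iUnion.mp hn
    exact (hiter j _).mpr ha
  have hsup : ∀ n, n ∈ A → (0 < n ∨ d ≠ 0) →
      n ∈ (⋃ e : {e : Fin (2 ^ r) // e.1 ≠ d}, TT r e.1.1 d {a | pre r e.1.1 a ∈ A}) := by
    intro n
    induction n using Nat.strong_induction_on with
    | _ n ih =>
      intro hn hcond
      have hmod : n % 2 ^ r < 2 ^ r := Nat.mod_lt _ (by positivity)
      have hdecomp : pre r (n % 2 ^ r) (n / 2 ^ r) = n := Nat.mod_add_div n (2 ^ r)
      by_cases hne : n % 2 ^ r = d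
      · have hmem : n / 2 ^ r ∈ A := by
          rw [← hA, ← hne, hdecomp]
          exact hn
        have hnpos : 0 < n := by
          rcases hcond with h | h
          · exact h
          · rcases Nat.eq_zero_or_pos n with h0 | h0
            · subst h0
              simp at hne
              exact (h hne.symm).elim
            · exact h0
        have hlt : n / 2 ^ r < n := Nat.div_lt_self hnpos (by omega)
        have hc' : 0 < n / 2 ^ r ∨ d ≠ 0 := by
          rcases Nat.eq_zero_or_pos d with h0 | h0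
          · left
            subst h0
            obtain ⟨q, hq⟩ := Nat.dvd_of_mod_eq_zero hne
            rw [hq, Nat.mul_div_cancel_left _ (by positivity)]
            rcases Nat.eq_zero_or_pos q with h | h
            · subst h; simp at hq; omega
            · exact h
          · right; omega
        obtain ⟨e, a, ha, j, hj⟩ := Set.mem_iUnion.mp (ih _ hlt hmem hc')
        refine Set.mem_iUnion.mpr ⟨e, a, ha, j + 1, ?_⟩
        rw [Function.iterate_succ_apply', ← hj, ← hne, hdecomp]
      · refine Set.mem_iUnion.mpr ⟨⟨⟨n % 2 ^ r, hmod⟩, hne⟩, n / 2 ^ r, ?_, 0, ?_⟩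
        · show pre r (n % 2 ^ r) (n / 2 ^ r) ∈ A
          rw [hdecomp]
          exact hn
        · simp [hdecomp]
  by_cases hd0 : d = 0
  · by_cases h0 : (0 : ℕ) ∈ A
    · have hdj : Disjoint (⋃ e : {e : Fin (2 ^ r) // e.1 ≠ d},
          TT r e.1.1 d {a | pre r e.1.1 a ∈ A}) {0} := by
        rw [Set.disjoint_right]
        intro n hn hn'
        rw [Set.mem_singleton_iff] at hn
        subst hn
        obtain ⟨e, a, ha, j, hj⟩ := Set.mem_iUnion.mp hn'
        have : 0 < (pre r d)^[j] (pre r e.1.1 a) := by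
          apply pre_iter_pos
          have : 0 < e.1.1 := Nat.pos_of_ne_zero (fun h => e.2 (by rw [h, hd0]))
          unfold pre
          omega
        omega
      have := hU.union Sp.zero hdj
      convert this using 1
      ext n
      constructor
      · intro hn
        rcases Nat.eq_zero_or_pos n with h | h
        · right; exact h
        · left; exact hsup n hn (Or.inl h)
      · rintro (hn | hn)
        · exact hsub hn
        · rw [Set.mem_singleton_iff] at hn
          rwa [hn]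
    · convert hU using 1
      apply Set.Subset.antisymm
      · intro n hn
        refine hsup n hn (Or.inl ?_)
        exact Nat.pos_of_ne_zero (fun h => h0 (h ▸ hn))
      · exact hsub
  · convert hU using 1
    apply Set.Subset.antisymm
    · intro n hn
      exact hsup n hn (Or.inr hd0)
    · exact hsub

/-- No-loop lemma. -/
lemma Sp.of_fibres {r : ℕ} {A : Set ℕ}
    (hE : ∀ e, e < 2 ^ r → Sp r {a | pre r e a ∈ A}) : Sp r A := by
  have key : ∀ e, e < 2 ^ r → ∀ B : Set ℕ, Sp r B → Sp r {n | ∃ a ∈ B, n = pre r e a} := by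
    intro e he B hB
    obtain ⟨ι, hι, C, hC, hdis, rfl⟩ := hB
    have h1 : {n | ∃ a ∈ ⋃ i, C i, n = pre r e a} = ⋃ i, {n | ∃ a ∈ C i, n = pre r e a} := by
      ext n
      simp only [Set.mem_iUnion, Set.mem_ofPred_eq]
      constructor
      · rintro ⟨a, ⟨i, hi⟩, rfl⟩
        exact ⟨i, a, hi, rfl⟩
      · rintro ⟨i, a, hi, rfl⟩
        exact ⟨a, ⟨i, hi⟩, rfl⟩
    rw [h1]
    apply Sp.iUnion
    · intro i
      rcases hC i with h | h
      · exact Sp.of_simple (h.step e he)
      · rw [h]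
        by_cases he0 : e = 0
        · subst he0
          convert Sp.zero (r := r) using 1
          ext n
          simp [pre]
        · have hs := Simple.single (r := r) e (Nat.pos_of_ne_zero he0)
          apply Sp.of_simple
          convert hs using 1
          ext n
          simp [pre]
    · intro i j hij
      rw [Set.disjoint_left]
      rintro n ⟨a, ha, rfl⟩ ⟨a', ha', h'⟩
      have := (pre_inj he he h').2
      subst this
      exact Set.disjoint_left.mp (hdis i j hij) ha ha'
  have : A = ⋃ e : Fin (2 ^ r), {n | ∃ a ∈ {a | pre r e a ∈ A}, n = pre r e a} := by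
    ext n
    simp only [Set.mem_iUnion, Set.mem_ofPred_eq]
    constructor
    · intro hn
      have hdecomp : pre r (n % 2 ^ r) (n / 2 ^ r) = n := Nat.mod_add_div n (2 ^ r)
      exact ⟨⟨n % 2 ^ r, Nat.mod_lt _ (by positivity)⟩, n / 2 ^ r, by rw [hdecomp]; exact hn,
        by rw [hdecomp]⟩
    · rintro ⟨e, a, ha, rfl⟩
      exact ha
  rw [this]
  apply Sp.iUnion
  · intro e
    exact key e.1 e.2 _ (hE e.1 e.2)
  · intro e e' hee
    rw [Set.disjoint_left]
    rintro n ⟨a, ha, rfl⟩ ⟨a', ha', h'⟩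
    exact hee (Fin.ext (pre_inj e.2 e'.2 h').1)

end Pool.Agent.Hhelper87.Nott
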