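import Mathlib
import Pool.Agent.Hhelper87.NottA

/-!
Power series over `F_2`: Frobenius, fixed point equations, supports.
-/

namespace Pool.Agent.Hhelper87.Nott

open PowerSeries

abbrev F2 := ZMod 2

lemma pow_two_pow_eq_expand (r : ℕ) (f : PowerSeries F2) :
    f ^ (2 ^ r) = expand (2 ^ r) (by positivity) f := by
  have h := MvPowerSeries.map_iterateFrobenius_expand (σ := Unit) (R := ZMod 2) 2 (by norm_num) f r
  have h2 : iterateFrobenius (ZMod 2) 2 r = RingHom.id _ := by
    ext x
    rw [iterateFrobenius_def, ZMod.pow_card_pow]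
    rfl
  rw [h2, MvPowerSeries.map_id] at h
  exact h.symm

noncomputable def solveFun (Q : ℕ) (A B : PowerSeries F2) (w0 : F2) (i : ℕ) : F2 :=
  if i = 0 then w0 else
    coeff i A + ∑ p ∈ Finset.HasAntidiagonal.antidiagonal i, coeff p.1 B *
      (if Q ∣ p.2 then (if _h : p.2 / Q < i then solveFun Q A B w0 (p.2 / Q) else 0) else 0)
termination_by i

lemma exists_solution (Q : ℕ) (hQ : 2 ≤ Q) (A B : PowerSeries F2) (w0 : F2)
    (h0 : w0 = coeff 0 A + coeff 0 B * w0) :
    ∃ W : PowerSeries F2, coeff 0 W = w0 ∧ W = A + B * expand Q (by omega) W := by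
  refine ⟨PowerSeries.mk (solveFun Q A B w0), ?_, ?_⟩
  · rw [coeff_mk, solveFun]
    simp
  · ext i
    rw [coeff_mk, map_add, coeff_mul]
    by_cases hi : i = 0
    · subst hi
      have : solveFun Q A B w0 0 = w0 := by rw [solveFun]; simp
      rw [this]
      rw [Finset.Nat.antidiagonal_zero, Finset.sum_singleton]
      rw [coeff_expand]
      simp only [dvd_zero, if_true, Nat.zero_div, coeff_mk, this]
      exact h0
    · rw [solveFun]
      rw [if_neg hi]
      congr 1
      apply Finset.sum_congr rfl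
      intro p hp
      rw [coeff_expand]
      have hp2 : p.2 ≤ i := by
        have := Finset.HasAntidiagonal.mem_antidiagonal.mp hp
        omega
      have hlt : p.2 / Q < i := by
        rcases Nat.eq_zero_or_pos p.2 with h | h
        · rw [h]; simp; omega
        · exact lt_of_lt_of_le (Nat.div_lt_self h (by omega)) hp2
      simp [hlt, coeff_mk]

/-- Coefficients of `X^a * expand Q H`. -/
lemma coeff_X_pow_mul_expand (Q : ℕ) (hQ : Q ≠ 0) (a e n : ℕ) (he : e < Q) (H : PowerSeries F2) :
    coeff (e + Q * n) (X ^ a * expand Q hQ H) =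
      if a % Q = e then coeff n (X ^ (a / Q) * H) else 0 := by
  have h1 : X ^ a * expand Q hQ H = X ^ (a % Q) * expand Q hQ (X ^ (a / Q) * H) := by
    rw [map_mul, map_pow, expand_X, ← pow_mul, ← mul_assoc, ← pow_add, Nat.mod_add_div]
  rw [h1, coeff_X_pow_mul']
  have hmod : a % Q < Q := Nat.mod_lt _ (Nat.pos_of_ne_zero hQ)
  by_cases h : a % Q = e
  · rw [if_pos h, h, if_pos (Nat.le_add_right _ _), Nat.add_sub_cancel_left, coeff_expand_mul]
  · rw [if_neg h]
    split_ifs with hle
    · rw [coeff_expand_of_not_dvd]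
      intro hdvd
      apply h
      obtain ⟨q, hq⟩ := hdvd
      have h3 : e + Q * n = a % Q + Q * q := by omega
      have h4 : (e + Q * n) % Q = e := by
        rw [Nat.add_mul_mod_self_left, Nat.mod_eq_of_lt he]
      have h5 : (a % Q + Q * q) % Q = a % Q := by
        rw [Nat.add_mul_mod_self_left, Nat.mod_mod]
      rw [← h5, ← h3, h4]
    · rfl

/-- support of a series over `F_2` -/
def supp (f : PowerSeries F2) : Set ℕ := {i | coeff i f = 1}

lemma F2_cases (a : F2) : a = 0 ∨ a = 1 := by
  revert a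
  decide

lemma three_cases (f : ℕ → ℕ) (P : ℕ → Prop) (hmono : ∀ x y, x ≤ y → f x ≤ f y)
    (hf2 : ∀ x, x ≤ 2 → f x ≤ 2) (hfix : ∀ x, x ≤ 2 → f x = x → P x)
    (hstep : ∀ x, x ≤ 2 → P (f x) → P x) : ∀ x, x ≤ 2 → P x := by
  have h0 := hf2 0 (by norm_num)
  have h1 := hf2 1 (by norm_num)
  have h2 := hf2 2 (by norm_num)
  have h01 := hmono 0 1 (by norm_num)
  have h12 := hmono 1 2 (by norm_num)
  have s0 := hstep 0 (by norm_num)
  have s1 := hstep 1 (by norm_num)
  have s2 := hstep 2 (by norm_num)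
  have t0 := hfix 0 (by norm_num)
  have t1 := hfix 1 (by norm_num)
  have t2 := hfix 2 (by norm_num)
  intro x hx
  generalize f 0 = f0 at *
  generalize f 1 = f1 at *
  generalize f 2 = f2 at *
  interval_cases f0 <;> interval_cases f1 <;> interval_cases f2 <;> interval_cases x <;> simp_all

section Main

variable (r m k : ℕ) (G : PowerSeries F2)

/-- fibre lemma -/
lemma fibre_lemma (hm : Odd m) (hG : G = 1 + X ^ m * G ^ (2 ^ r)) (c x e n : ℕ) (hc : c < 2 ^ r)
    (he : e < 2 ^ r) (j : ℕ) (hj : j ≤ c) (hje : (x + m * j) % 2 ^ r = e) :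
    coeff (e + 2 ^ r * n) (X ^ x * G ^ c) =
      (c.choose j : F2) * coeff n (X ^ ((x + m * j) / 2 ^ r) * G ^ j) := by
  have hexp : X ^ x * G ^ c = ∑ i ∈ Finset.range (c + 1), ((c.choose i : ℕ) : PowerSeries F2) *
      (X ^ (x + m * i) * expand (2 ^ r) (by positivity) (G ^ i)) := by
    conv_lhs => rw [hG, add_comm (1 : PowerSeries F2), add_pow]
    rw [Finset.mul_sum]
    apply Finset.sum_congr rfl
    intro i hi
    rw [← pow_two_pow_eq_expand, one_pow, mul_pow, ← pow_mul, ← pow_mul, ← pow_mul, pow_add,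
      mul_comm (2 ^ r) i]
    ring
  rw [hexp, map_sum, Finset.sum_eq_single j]
  · rw [← nsmul_eq_mul, map_nsmul, coeff_X_pow_mul_expand _ _ _ _ _ he, if_pos hje, nsmul_eq_mul]
  · intro i hi hij
    rw [← nsmul_eq_mul, map_nsmul, coeff_X_pow_mul_expand _ _ _ _ _ he, if_neg, smul_zero]
    intro hmod
    apply hij
    have h1 : x + m * i ≡ x + m * j [MOD 2 ^ r] := by
      rw [Nat.ModEq, hmod, hje]
    have h2 : m * i ≡ m * j [MOD 2 ^ r] := Nat.ModEq.add_left_cancel' x h1
    have hcop : Nat.gcd (2 ^ r) m = 1 := by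
      apply Nat.Coprime.pow_left
      exact (Nat.coprime_two_left).mpr hm
    have h3 : i ≡ j [MOD 2 ^ r] := Nat.ModEq.cancel_left_of_coprime hcop h2
    have hi' : i < 2 ^ r := by
      have := Finset.mem_range.mp hi
      omega
    have hj' : j < 2 ^ r := by omega
    exact Nat.ModEq.eq_of_lt_of_lt h3 hi' hj'
  · intro h
    exact (h (Finset.mem_range.mpr (by omega))).elim

lemma fibre_lemma_zero (hG : G = 1 + X ^ m * G ^ (2 ^ r)) (c x e n : ℕ)
    (he : e < 2 ^ r) (hno : ∀ j ≤ c, (x + m * j) % 2 ^ r ≠ e) :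
    coeff (e + 2 ^ r * n) (X ^ x * G ^ c) = 0 := by
  have hexp : X ^ x * G ^ c = ∑ i ∈ Finset.range (c + 1), ((c.choose i : ℕ) : PowerSeries F2) *
      (X ^ (x + m * i) * expand (2 ^ r) (by positivity) (G ^ i)) := by
    conv_lhs => rw [hG, add_comm (1 : PowerSeries F2), add_pow]
    rw [Finset.mul_sum]
    apply Finset.sum_congr rfl
    intro i hi
    rw [← pow_two_pow_eq_expand, one_pow, mul_pow, ← pow_mul, ← pow_mul, ← pow_mul, pow_add,
      mul_comm (2 ^ r) i]
    ring
  rw [hexp, map_sum]
  apply Finset.sum_eq_zero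
  intro i hi
  rw [← nsmul_eq_mul, map_nsmul, coeff_X_pow_mul_expand _ _ _ _ _ he, if_neg, smul_zero]
  apply hno
  have := Finset.mem_range.mp hi
  omega

/-- The supports of `X^x G^c`, `x ≤ 2`, `c ≤ k`, are sparse. -/
lemma supp_sparse (hm : Odd m) (hr : 0 < r) (hG : G = 1 + X ^ m * G ^ (2 ^ r))
    (hk : k < 2 ^ r) (hmk : m * k < 2 * 2 ^ r) :
    ∀ c, c ≤ k → ∀ x, x ≤ 2 → Sp r (supp (X ^ x * G ^ c)) := by
  intro c
  induction c using Nat.strong_induction_on with
  | _ c ih =>
    intro hck
    have hN : 2 ≤ 2 ^ r := by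
      calc 2 = 2 ^ 1 := rfl
        _ ≤ 2 ^ r := Nat.pow_le_pow_right (by norm_num) hr
    have hcar : ∀ x j, x ≤ 2 → j ≤ c → (x + m * j) / 2 ^ r ≤ 2 := by
      intro x j hx hj
      have h1 : m * j ≤ m * k := Nat.mul_le_mul_left m (le_trans hj hck)
      rw [Nat.div_le_iff_le_mul_add_pred (by positivity)]
      omega
    -- fibres
    have hfib : ∀ x, x ≤ 2 → ∀ e, e < 2 ^ r → e ≠ (x + m * c) % 2 ^ r →
        Sp r {a | pre r e a ∈ supp (X ^ x * G ^ c)} := by
      intro x hx e he hne
      by_cases hex : ∃ j, j ≤ c ∧ (x + m * j) % 2 ^ r = e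
      · obtain ⟨j, hj, hje⟩ := hex
        have hjc : j ≠ c := by
          rintro rfl
          exact hne hje.symm
        have hlt : j < c := lt_of_le_of_ne hj hjc
        rcases F2_cases (c.choose j : F2) with h0 | h1
        · convert Sp.empty (r := r) using 1
          ext a
          simp only [Set.mem_ofPred_eq, Set.mem_empty_iff_false, iff_false]
          show ¬ (coeff (e + 2 ^ r * a) (X ^ x * G ^ c) = 1)
          rw [fibre_lemma r m G hm hG c x e a (by omega) he j hj hje, h0, zero_mul]
          exact zero_ne_one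
        · convert ih j hlt (by omega) _ (hcar x j hx hj) using 1
          ext a
          show (coeff (e + 2 ^ r * a) (X ^ x * G ^ c) = 1) ↔ _
          rw [fibre_lemma r m G hm hG c x e a (by omega) he j hj hje, h1, one_mul]
          rfl
      · push Not at hex
        convert Sp.empty (r := r) using 1
        ext a
        simp only [Set.mem_ofPred_eq, Set.mem_empty_iff_false, iff_false]
        show ¬ (coeff (e + 2 ^ r * a) (X ^ x * G ^ c) = 1)
        rw [fibre_lemma_zero r m G hG c x e a he hex]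
        exact zero_ne_one
    have hmain : ∀ x, x ≤ 2 → ∀ a, (pre r ((x + m * c) % 2 ^ r) a ∈ supp (X ^ x * G ^ c) ↔
        a ∈ supp (X ^ ((x + m * c) / 2 ^ r) * G ^ c)) := by
      intro x hx a
      show (coeff ((x + m * c) % 2 ^ r + 2 ^ r * a) (X ^ x * G ^ c) = 1) ↔ _
      rw [fibre_lemma r m G hm hG c x _ a (by omega) (Nat.mod_lt _ (by positivity)) c le_rfl rfl,
        Nat.choose_self, Nat.cast_one, one_mul]
      rfl
    apply three_cases (fun x => (x + m * c) / 2 ^ r)
    · intro x y hxy
      exact Nat.div_le_div_right (by omega)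
    · exact fun x hx => hcar x c hx le_rfl
    · intro x hx hfx
      refine Sp.of_loop hr (Nat.mod_lt (x + m * c) (by positivity)) ?_ (hfib x hx)
      intro a
      have := hmain x hx a
      rw [show (x + m * c) / 2 ^ r = x from hfx] at this
      exact this
    · intro x hx hPf
      apply Sp.of_fibres
      intro e he
      by_cases hne : e = (x + m * c) % 2 ^ r
      · convert hPf using 1
        ext a
        rw [hne]
        exact hmain x hx a
      · exact hfib x hx e he hne

end Main

end Pool.Agent.Hhelper87.Nott
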