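import Mathlib
import Pool.Agent.Hhelper87.NottB

/-!
Composition of power series over `F_2`, involutions.
-/

namespace Pool.Agent.Hhelper87.Nott

open PowerSeries

abbrev Z0 (f : PowerSeries F2) : Prop := coeff 0 f = 0

lemma Z0.hasSubst {f : PowerSeries F2} (h : Z0 f) : HasSubst f := by
  apply HasSubst.of_constantCoeff_zero'
  rw [← coeff_zero_eq_constantCoeff_apply]
  exact h

lemma comp_add {a : PowerSeries F2} (ha : Z0 a) (f g : PowerSeries F2) :
    comp (f + g) a = comp f a + comp g a := subst_add ha.hasSubst f g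

lemma comp_mul {a : PowerSeries F2} (ha : Z0 a) (f g : PowerSeries F2) :
    comp (f * g) a = comp f a * comp g a := subst_mul ha.hasSubst f g

lemma comp_pow {a : PowerSeries F2} (ha : Z0 a) (f : PowerSeries F2) (n : ℕ) :
    comp (f ^ n) a = comp f a ^ n := subst_pow ha.hasSubst f n

lemma comp_one {a : PowerSeries F2} (ha : Z0 a) : comp 1 a = 1 := by
  have := comp_pow ha 1 0
  simpa using this

lemma X_comp {a : PowerSeries F2} (ha : Z0 a) : comp X a = a := subst_X ha.hasSubst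

lemma comp_X (f : PowerSeries F2) : comp f X = f := X_subst f

lemma comp_assoc {a b : PowerSeries F2} (ha : Z0 a) (hb : Z0 b) (f : PowerSeries F2) :
    comp (comp f a) b = comp f (comp a b) :=
  subst_comp_subst_apply ha.hasSubst hb.hasSubst f

lemma coeff_zero_comp {a : PowerSeries F2} (ha : Z0 a) (f : PowerSeries F2) :
    coeff 0 (comp f a) = coeff 0 f := by
  unfold comp
  rw [coeff_subst' ha.hasSubst, finsum_eq_single _ 0]
  · simp
  · intro n hn
    have : coeff 0 (a ^ n) = 0 := by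
      rw [coeff_zero_eq_constantCoeff_apply, map_pow, ← coeff_zero_eq_constantCoeff_apply, ha,
        zero_pow hn]
    rw [this, smul_zero]

lemma c0_mul (f g : PowerSeries F2) : coeff 0 (f * g) = coeff 0 f * coeff 0 g := by
  simp only [coeff_zero_eq_constantCoeff_apply, map_mul]

lemma InNott.z {f : PowerSeries F2} (h : InNott f) : Z0 f := h.1

lemma inNott_X : InNott (X : PowerSeries F2) := by
  refine ⟨?_, ?_⟩
  · simp
  · simp

lemma inNott_iff {f : PowerSeries F2} : InNott f ↔ ∃ u, f = X * u ∧ coeff 0 u = 1 := by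
  constructor
  · rintro ⟨h0, h1⟩
    have h0' : constantCoeff f = 0 := by
      rw [← coeff_zero_eq_constantCoeff_apply]; exact h0
    obtain ⟨u, hu⟩ := X_dvd_iff.mpr h0'
    refine ⟨u, hu, ?_⟩
    rw [hu, show (1 : ℕ) = 0 + 1 from rfl, coeff_succ_X_mul] at h1
    exact h1
  · rintro ⟨u, rfl, hu⟩
    refine ⟨by simp, ?_⟩
    rw [show (1 : ℕ) = 0 + 1 from rfl, coeff_succ_X_mul]
    exact hu

lemma InNott.comp {f g : PowerSeries F2} (hf : InNott f) (hg : InNott g) :
    InNott (comp f g) := by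
  obtain ⟨u, rfl, hu⟩ := inNott_iff.mp hf
  obtain ⟨v, rfl, hv⟩ := inNott_iff.mp hg
  rw [comp_mul hg.z, X_comp hg.z, mul_assoc, inNott_iff]
  refine ⟨_, rfl, ?_⟩
  rw [c0_mul, coeff_zero_comp hg.z, hu, hv, one_mul]

lemma exists_inv {f : PowerSeries F2} (hf : InNott f) :
    ∃ g, InNott g ∧ Nott.comp f g = X ∧ Nott.comp g f = X := by
  have h0 : constantCoeff f = 0 := by
    rw [← coeff_zero_eq_constantCoeff_apply]; exact hf.1
  have h1 : IsUnit (coeff 1 f) := by rw [hf.2]; exact isUnit_one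
  refine ⟨f.substInvOfIsUnit h1, ⟨?_, ?_⟩, ?_, ?_⟩
  · rw [coeff_zero_eq_constantCoeff_apply, constantCoeff_substInvOfIsUnit]
  · rw [coeff_one_substInvOfIsUnit]
    have : h1.unit = 1 := by
      ext
      simp [hf.2]
    rw [this]
    simp
  · exact subst_substInvOfIsUnit_right f h0 h1
  · exact subst_substInvOfIsUnit_left f h0 h1

lemma add_self_F (f : PowerSeries F2) : f + f = 0 := by
  ext i
  rw [map_add, map_zero]
  have : ∀ a : F2, a + a = 0 := by decide
  exact this _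

instance : CharP (PowerSeries F2) 2 := by
  refine CharTwo.of_one_ne_zero_of_two_eq_zero one_ne_zero ?_
  rw [← one_add_one_eq_two]
  exact add_self_F 1

lemma isUnit_of_coeff {u : PowerSeries F2} (hu : coeff 0 u = 1) : IsUnit u := by
  rw [isUnit_iff_constantCoeff, ← coeff_zero_eq_constantCoeff_apply, hu]
  exact isUnit_one

lemma coeff_zero_pow_one {u : PowerSeries F2} (hu : coeff 0 u = 1) (n : ℕ) :
    coeff 0 (u ^ n) = 1 := by
  rw [coeff_zero_eq_constantCoeff_apply, map_pow, ← coeff_zero_eq_constantCoeff_apply, hu,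
    one_pow]

/-- uniqueness of odd roots -/
lemma root_unique {u v : PowerSeries F2} (hu : coeff 0 u = 1) (hv : coeff 0 v = 1) {d : ℕ}
    (hd : Odd d) (h : u ^ d = v ^ d) : u = v := by
  have h1 : (u - v) * ∑ i ∈ Finset.range d, u ^ i * v ^ (d - 1 - i) = 0 := by
    rw [mul_comm, geom_sum₂_mul, h, sub_self]
  have h2 : coeff 0 (∑ i ∈ Finset.range d, u ^ i * v ^ (d - 1 - i)) = 1 := by
    rw [map_sum]
    have : ∀ i ∈ Finset.range d, coeff 0 (u ^ i * v ^ (d - 1 - i)) = 1 := by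
      intro i _
      rw [c0_mul, coeff_zero_pow_one hu, coeff_zero_pow_one hv, one_mul]
    rw [Finset.sum_congr rfl this]
    simp only [Finset.sum_const, Finset.card_range, nsmul_eq_mul, mul_one]
    obtain ⟨e, rfl⟩ := hd
    push_cast
    have : (2 : ZMod 2) = 0 := by decide
    rw [this]
    simp
  have h3 : (∑ i ∈ Finset.range d, u ^ i * v ^ (d - 1 - i)) ≠ 0 := (isUnit_of_coeff h2).ne_zero
  rcases mul_eq_zero.mp h1 with h | h
  · exact sub_eq_zero.mp h
  · exact (h3 h).elim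

/-- existence of odd roots -/
lemma root_exists {u : PowerSeries F2} (hu : coeff 0 u = 1) {d : ℕ} (hd : Odd d) :
    ∃ w, coeff 0 w = 1 ∧ w ^ d = u := by
  have hcop : Nat.Coprime 2 d := (Nat.coprime_two_left).mpr hd
  have hdpos : 0 < d := hd.pos
  have hφ : 0 < Nat.totient d := Nat.totient_pos.mpr hdpos
  have hQ : 2 ≤ 2 ^ Nat.totient d := by
    calc 2 = 2 ^ 1 := rfl
      _ ≤ 2 ^ _ := Nat.pow_le_pow_right (by norm_num) hφ
  have hdvd : d ∣ 2 ^ Nat.totient d - 1 := by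
    have := Nat.ModEq.pow_totient hcop
    exact (Nat.modEq_iff_dvd' (by omega)).mp this.symm
  obtain ⟨c, hc⟩ := hdvd
  obtain ⟨v, hv⟩ := isUnit_of_coeff hu
  have hv0 : coeff 0 (↑v⁻¹ : PowerSeries F2) = 1 := by
    have h1 : (v : PowerSeries F2) * (↑v⁻¹ : PowerSeries F2) = 1 := by simp
    have h2 := congrArg (coeff 0) h1
    rw [c0_mul, hv, hu, one_mul] at h2
    rw [h2]
    simp
  obtain ⟨W, hW0, hW⟩ := exists_solution (2 ^ Nat.totient d) hQ 0 (↑v⁻¹) 1 (by rw [hv0]; simp)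
  rw [← pow_two_pow_eq_expand, zero_add] at hW
  have hWne : W ≠ 0 := (isUnit_of_coeff hW0).ne_zero
  have h1 : u * W = W ^ (2 ^ Nat.totient d) := by
    conv_lhs => rw [hW]
    rw [← hv, ← mul_assoc]
    simp
  have h2 : W ^ (2 ^ Nat.totient d) = W ^ (2 ^ Nat.totient d - 1) * W := by
    rw [← pow_succ]
    congr 1
    omega
  rw [h2] at h1
  have h3 := mul_right_cancel₀ hWne h1
  refine ⟨W ^ c, coeff_zero_pow_one hW0 c, ?_⟩
  rw [← pow_mul, mul_comm c d, ← hc, h3]

lemma fixed_unique {s δ : PowerSeries F2} (hs : coeff 0 s = 0) {N : ℕ} (hN : 1 ≤ N)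
    (h : δ = s * δ ^ N) : δ = 0 := by
  have h1 : δ * (1 - s * δ ^ (N - 1)) = 0 := by
    have : δ ^ N = δ ^ (N - 1) * δ := by
      rw [← pow_succ]; congr 1; omega
    rw [this] at h
    rw [mul_sub, mul_one, sub_eq_zero]
    calc δ = s * (δ ^ (N - 1) * δ) := h
      _ = δ * (s * δ ^ (N - 1)) := by ring
  rcases mul_eq_zero.mp h1 with h | h
  · exact h
  · exfalso
    have : coeff 0 (1 - s * δ ^ (N - 1)) = 1 := by
      rw [map_sub, c0_mul, hs, zero_mul, sub_zero]
      simp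
    rw [h] at this
    simp at this

/-- `G(σ) = 1/G`, `σ(σ(t)) = t`. -/
lemma involution {r m k : ℕ} (hm : 0 < m) {G : PowerSeries F2} (hG0 : coeff 0 G = 1)
    (hG : G = 1 + X ^ m * G ^ (2 ^ r)) (hmk : m * k + 1 = 2 * 2 ^ r) :
    comp (X * G ^ k) (X * G ^ k) = X := by
  have hσ : InNott (X * G ^ k) := inNott_iff.mpr ⟨_, rfl, coeff_zero_pow_one hG0 k⟩
  obtain ⟨v, hv⟩ := isUnit_of_coeff hG0
  set h' : PowerSeries F2 := (↑v⁻¹ : PowerSeries F2) with hh'
  have hvG : h' * G = 1 := by rw [← hv]; simp [hh']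
  set σ := X * G ^ k with hσdef
  set h := comp G σ with hh
  have e1 : h = 1 + σ ^ m * h ^ (2 ^ r) := by
    rw [hh]
    conv_lhs => rw [hG]
    rw [comp_add hσ.z, comp_one hσ.z, comp_mul hσ.z, comp_pow hσ.z, X_comp hσ.z, comp_pow hσ.z]
  have hpow : ∀ n, h' ^ n * G ^ n = 1 := by
    intro n
    rw [← mul_pow, hvG, one_pow]
  have e2 : h' = 1 + σ ^ m * h' ^ (2 ^ r) := by
    have hN : 1 ≤ 2 ^ r := Nat.one_le_two_pow
    have f1 : σ ^ m * h' ^ (2 ^ r) = X ^ m * G ^ (2 ^ r) * h' := by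
      have f2 : σ ^ m = X ^ m * (G ^ (2 ^ r) * G ^ (2 ^ r - 1)) := by
        rw [hσdef, mul_pow, ← pow_mul, ← pow_add]
        congr 2
        rw [mul_comm k m]
        omega
      rw [f2]
      have f3 : h' ^ (2 ^ r) = h' * h' ^ (2 ^ r - 1) := by
        rw [← pow_succ']
        congr 1
        omega
      rw [f3]
      calc X ^ m * (G ^ (2 ^ r) * G ^ (2 ^ r - 1)) * (h' * h' ^ (2 ^ r - 1))
          = X ^ m * G ^ (2 ^ r) * h' * (h' ^ (2 ^ r - 1) * G ^ (2 ^ r - 1)) := by ring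
        _ = _ := by rw [hpow, mul_one]
    rw [f1]
    have f4 : X ^ m * G ^ (2 ^ r) = G + 1 := by
      have : G + 1 = 1 + X ^ m * G ^ (2 ^ r) + 1 := by
        conv_lhs => rw [hG]
      rw [this]
      have := add_self_F (1 : PowerSeries F2)
      linear_combination (-1 : PowerSeries F2) * this
    rw [f4, add_mul, mul_comm G h', hvG, one_mul]
    have := add_self_F (1 : PowerSeries F2)
    linear_combination (-1 : PowerSeries F2) * this
  have e3 : h + h' = 0 := by
    apply fixed_unique (s := σ ^ m) (N := 2 ^ r) _ Nat.one_le_two_pow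
    · rw [add_pow_char_pow]
      conv_lhs => rw [e1, e2]
      have := add_self_F (1 : PowerSeries F2)
      linear_combination this
    · rw [coeff_zero_eq_constantCoeff_apply, map_pow, ← coeff_zero_eq_constantCoeff_apply, hσ.z,
        zero_pow hm.ne']
  have e4 : h = h' := by
    have := add_self_F h'
    linear_combination e3 - this
  show comp (X * G ^ k) σ = X
  rw [comp_mul hσ.z, X_comp hσ.z, comp_pow hσ.z, ← hh, e4, hσdef, mul_assoc, mul_comm (G ^ k),
    hpow, mul_one]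

/-- congruence lemma -/
lemma comp_congr {τ : PowerSeries F2} (hτ : Z0 τ) {n : ℕ} (h : X ^ n ∣ τ - X)
    (u : PowerSeries F2) : X ^ n ∣ comp u τ - u := by
  rw [X_pow_dvd_iff]
  intro i hi
  rw [map_sub, sub_eq_zero]
  conv_rhs => rw [← comp_X u]
  unfold comp
  rw [coeff_subst' hτ.hasSubst, coeff_subst' (inNott_X).z.hasSubst]
  apply finsum_congr
  intro j
  congr 1
  rw [← sub_eq_zero, ← map_sub]
  exact (X_pow_dvd_iff.mp (h.trans (sub_dvd_pow_sub_pow τ X j))) i hi

section Inv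

variable {τ b u : PowerSeries F2} {d : ℕ}

lemma inv_key1 (hτ : InNott τ) (hinv : comp τ τ = X) (hb : τ = X * (1 + b)) :
    (1 + b) * comp b τ = b := by
  have h1 : comp τ τ = τ * (1 + comp b τ) := by
    conv_lhs => rw [hb]
    rw [comp_mul (by rw [← hb]; exact hτ.z), X_comp (by rw [← hb]; exact hτ.z),
      comp_add (by rw [← hb]; exact hτ.z), comp_one (by rw [← hb]; exact hτ.z), ← hb]
  rw [hinv] at h1
  have h2 : X * 1 = X * ((1 + b) * (1 + comp b τ)) := by
    rw [mul_one, ← mul_assoc, ← hb]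
    exact h1
  have h3 := mul_left_cancel₀ X_ne_zero h2
  have := add_self_F b
  linear_combination -h3 - this

lemma depth_odd (hτ : InNott τ) (hinv : comp τ τ = X) (hb : τ = X * (1 + b))
    (hbu : b = X ^ d * u) (hu : coeff 0 u = 1) (hd : 0 < d) : Odd d := by
  by_contra hodd
  rw [Nat.not_odd_iff_even] at hodd
  obtain ⟨e, he⟩ := hodd
  have hd2 : d = 2 * e := by omega
  have h1 := inv_key1 hτ hinv hb
  have h2 : comp b τ = X ^ d * ((1 + b) ^ d * comp u τ) := by
    conv_lhs => rw [hbu]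
    rw [comp_mul hτ.z, comp_pow hτ.z, X_comp hτ.z]
    have h3 : τ ^ d = X ^ d * (1 + b) ^ d := by
      rw [← mul_pow, ← hb]
    rw [h3, mul_assoc]
  have hXd : (X : PowerSeries F2) ^ (d + 1) ∣ τ - X := by
    rw [hb, hbu]
    exact ⟨u, by ring⟩
  obtain ⟨w, hw⟩ := comp_congr hτ.z hXd u
  -- (1+b)^d = 1 + b^2 z
  obtain ⟨z, hz⟩ : b ^ 2 ∣ (1 + b) ^ d - 1 := by
    have : (1 + b) ^ d = (1 + b ^ 2) ^ e := by
      rw [hd2, pow_mul]
      congr 1
      have := add_self_F b
      linear_combination this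
    rw [this]
    have h3 := sub_dvd_pow_sub_pow (1 + b ^ 2) 1 e
    rw [one_pow] at h3
    have h4 : (1 + b ^ 2) - 1 = b ^ 2 := by ring
    rwa [h4] at h3
  have hcu : coeff 0 (comp u τ) = 1 := by rw [coeff_zero_comp hτ.z, hu]
  have hunit : coeff 0 (u * ((1 + b) ^ d * comp u τ)) = 1 := by
    have hb0 : coeff 0 b = 0 := by
      rw [hbu, coeff_zero_eq_constantCoeff_apply, map_mul, map_pow]
      simp [hd.ne']
    have hb1 : coeff 0 (1 + b) = 1 := by
      rw [map_add, hb0, add_zero]; simp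
    rw [c0_mul, c0_mul, hu, hcu, coeff_zero_pow_one hb1]
    simp
  -- main identity
  have h5 : X ^ d * (X ^ d * (u * ((1 + b) ^ d * comp u τ))) =
      X ^ d * (X ^ (d + 1) * (w + X ^ (d - 1) * u ^ 2 * z * comp u τ)) := by
    have e1 : b * comp b τ = comp b τ + b := by
      have := add_self_F (comp b τ)
      linear_combination h1 - this
    have e2 : comp u τ = u + X ^ (d + 1) * w := by
      linear_combination hw
    have e3 : (1 + b) ^ d = 1 + b ^ 2 * z := by linear_combination hz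
    have e4 : X ^ d * (X ^ d * (u * ((1 + b) ^ d * comp u τ))) = b * comp b τ := by
      rw [h2]
      linear_combination (-(X ^ d * ((1 + b) ^ d * comp u τ))) * hbu
    rw [e4, e1, h2, e3]
    have e5 : X ^ d * ((1 + b ^ 2 * z) * comp u τ) + b =
        X ^ d * (comp u τ + u) + X ^ d * (b ^ 2 * z * comp u τ) := by
      linear_combination hbu
    rw [e5]
    have e6 : comp u τ + u = X ^ (d + 1) * w := by
      have := add_self_F u
      linear_combination hw + this
    have e7 : b ^ 2 * z * comp u τ = X ^ (d + 1) * (X ^ (d - 1) * u ^ 2 * z * comp u τ) := by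
      have : (X : PowerSeries F2) ^ d * X ^ d = X ^ (d + 1) * X ^ (d - 1) := by
        rw [← pow_add, ← pow_add]; congr 1; omega
      rw [hbu]
      linear_combination (u ^ 2 * z * comp u τ) * this
    rw [e6, e7]
    ring
  have h6 := mul_left_cancel₀ (pow_ne_zero d (X_ne_zero)) h5
  rw [pow_succ, mul_assoc] at h6
  have h7 := mul_left_cancel₀ (pow_ne_zero d (X_ne_zero)) h6
  rw [h7] at hunit
  simp at hunit

/-- every involution of depth `d` is conjugate to a fixed series `κ`. -/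
lemma conj_normal (hτ : InNott τ) (hinv : comp τ τ = X) (hb : τ = X * (1 + b))
    (hbu : b = X ^ d * u) (hu : coeff 0 u = 1) (hd : Odd d) :
    ∃ κ χ ψ, InNott κ ∧ InNott χ ∧ InNott ψ ∧ comp χ ψ = X ∧ comp ψ χ = X ∧
      κ = comp (comp χ τ) ψ ∧ κ ^ d * (1 + X ^ d) = X ^ d := by
  obtain ⟨w, hw0, hw⟩ := root_exists hu hd
  have hβ : InNott (X * w) := inNott_iff.mpr ⟨w, rfl, hw0⟩
  obtain ⟨ψ, hψ, h1, h2⟩ := exists_inv hβ
  have hβd : (X * w) ^ d = b := by rw [mul_pow, hw, hbu]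
  refine ⟨comp (comp (X * w) τ) ψ, X * w, ψ, (hβ.comp hτ).comp hψ, hβ, hψ, h1, h2, rfl, ?_⟩
  have h3 := inv_key1 hτ hinv hb
  have h4 : (comp (X * w) τ) ^ d * (1 + (X * w) ^ d) = (X * w) ^ d := by
    rw [← comp_pow hτ.z, hβd, mul_comm, h3]
  have h5 := congrArg (fun f => comp f ψ) h4
  simp only [comp_mul hψ.z, comp_pow hψ.z, comp_add hψ.z, comp_one hψ.z] at h5
  rw [← comp_mul hψ.z, h1] at h5
  exact h5

end Inv

lemma kappa_unique {κ κ' : PowerSeries F2} {d : ℕ} (hd : Odd d) (h : InNott κ) (h' : InNott κ')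
    (e : κ ^ d * (1 + X ^ d) = X ^ d) (e' : κ' ^ d * (1 + X ^ d) = X ^ d) : κ = κ' := by
  have hne : (1 + X ^ d : PowerSeries F2) ≠ 0 := by
    apply (isUnit_of_coeff _).ne_zero
    rw [map_add]
    have : coeff 0 ((X : PowerSeries F2) ^ d) = 0 := by
      rw [coeff_zero_eq_constantCoeff_apply, map_pow]
      simp [hd.pos.ne']
    rw [this]
    simp
  have h1 : κ ^ d = κ' ^ d := mul_right_cancel₀ hne (e.trans e'.symm)
  obtain ⟨u, rfl, hu⟩ := inNott_iff.mp h
  obtain ⟨v, rfl, hv⟩ := inNott_iff.mp h'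
  rw [mul_pow, mul_pow] at h1
  have h2 := mul_left_cancel₀ (pow_ne_zero d (X_ne_zero)) h1
  rw [root_unique hu hv hd h2]

/-- Two involutions of the same depth are conjugate. -/
lemma conj_of_depth {τ b u σ c v : PowerSeries F2} {d : ℕ}
    (hτ : InNott τ) (hinv : comp τ τ = X) (hb : τ = X * (1 + b))
    (hbu : b = X ^ d * u) (hu : coeff 0 u = 1)
    (hσ : InNott σ) (hinv' : comp σ σ = X) (hc : σ = X * (1 + c))
    (hcv : c = X ^ d * v) (hv : coeff 0 v = 1) (hd : Odd d) : Conjugate τ σ := by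
  obtain ⟨κ, χ, ψ, hκ, hχ, hψ, h1, h2, h3, h4⟩ := conj_normal hτ hinv hb hbu hu hd
  obtain ⟨κ', χ', ψ', hκ', hχ', hψ', h1', h2', h3', h4'⟩ := conj_normal hσ hinv' hc hcv hv hd
  have hκκ := kappa_unique hd hκ hκ' h4 h4'
  refine ⟨comp ψ' χ, comp ψ χ', hψ'.comp hχ, hψ.comp hχ', ?_, ?_, ?_⟩
  · rw [comp_assoc hχ.z (hψ.comp hχ').z, ← comp_assoc hψ.z hχ'.z, h1, X_comp hχ'.z, h2']
  · rw [comp_assoc hχ'.z (hψ'.comp hχ).z, ← comp_assoc hψ'.z hχ.z, h1', X_comp hχ.z, h2]
  · have e1 : comp (comp ψ' κ') χ' = σ := by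
      rw [h3', comp_assoc (((hχ'.comp hσ).comp hψ').z) hχ'.z,
        comp_assoc hψ'.z hχ'.z (comp χ' σ), h2', comp_X, ← comp_assoc hχ'.z hσ.z, h2',
        X_comp hσ.z]
    rw [← e1, ← hκκ, h3]
    rw [comp_assoc hχ.z hτ.z, ← comp_assoc hψ.z hχ'.z, comp_assoc (hχ.comp hτ).z hψ.z]
end Pool.Agent.Hhelper87.Nott
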