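import Mathlib
import Pool.Agent.Hhelper87.NottC

/-!
Sparse representatives of the involutions of the Nottingham group over `F_2`.
-/

namespace Pool.Agent.Hhelper87.Nott

open PowerSeries

lemma exists_G {m r : ℕ} (hm : 0 < m) (hr : 0 < r) :
    ∃ G : PowerSeries F2, coeff 0 G = 1 ∧ G = 1 + X ^ m * G ^ (2 ^ r) := by
  have hQ : 2 ≤ 2 ^ r := by
    calc 2 = 2 ^ 1 := rfl
      _ ≤ 2 ^ _ := Nat.pow_le_pow_right (by norm_num) hr
  obtain ⟨G, h0, hG⟩ := exists_solution (2 ^ r) hQ 1 (X ^ m) 1 (by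
    rw [coeff_zero_eq_constantCoeff_apply, coeff_zero_eq_constantCoeff_apply, map_pow]
    simp [hm.ne'])
  refine ⟨G, h0, ?_⟩
  rw [pow_two_pow_eq_expand]
  exact hG

lemma rep_shape {m r k : ℕ} {G : PowerSeries F2} (hG0 : coeff 0 G = 1)
    (hG : G = 1 + X ^ m * G ^ (2 ^ r)) (hk : Odd k) :
    ∃ v, X * G ^ k = X * (1 + X ^ m * v) ∧ coeff 0 v = 1 := by
  refine ⟨G ^ (2 ^ r) * ∑ i ∈ Finset.range k, G ^ i, ?_, ?_⟩
  · congr 1
    have h1 := geom_sum_mul G k
    have h2 : G - 1 = X ^ m * G ^ (2 ^ r) := by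
      conv_lhs => rw [hG]
      ring
    rw [h2] at h1
    linear_combination -h1
  · rw [c0_mul, coeff_zero_pow_one hG0, one_mul, map_sum]
    rw [Finset.sum_congr rfl (fun i _ => coeff_zero_pow_one hG0 i)]
    simp only [Finset.sum_const, Finset.card_range, nsmul_eq_mul, mul_one]
    obtain ⟨e, rfl⟩ := hk
    push_cast
    have : (2 : ZMod 2) = 0 := by decide
    rw [this]
    simp

/-- the case `m = 1` -/
lemma sparse_one {G : PowerSeries F2} (hG0 : coeff 0 G = 1)
    (hG : G = 1 + X ^ 1 * G ^ (2 ^ 1)) : Sp 1 (supp (X * G ^ 3)) := by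
  have hG' : G = 1 + X * expand 2 (by norm_num) G := by
    have := pow_two_pow_eq_expand 1 G
    conv_lhs => rw [hG, this]
    simp
  have hodd : ∀ n, coeff (1 + 2 * n) G = coeff n G := by
    intro n
    conv_lhs => rw [hG']
    rw [map_add, add_comm 1 (2 * n), coeff_succ_X_mul, coeff_expand_mul, coeff_one]
    simp
  have heven : ∀ n, n ≠ 0 → coeff (2 * n) G = 0 := by
    intro n hn
    conv_lhs => rw [hG']
    obtain ⟨q, rfl⟩ := Nat.exists_eq_succ_of_ne_zero hn
    rw [map_add, show 2 * q.succ = (2 * q + 1) + 1 by omega, coeff_succ_X_mul,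
      coeff_expand_of_not_dvd _ _ _ (by omega), coeff_one]
    simp
  have hB : Sp 1 (supp G) := by
    refine Sp.of_loop (d := 1) one_pos (by norm_num) ?_ ?_
    · intro a
      show coeff (1 + 2 ^ 1 * a) G = 1 ↔ coeff a G = 1
      rw [pow_one, hodd]
    · intro e he hne
      have : e = 0 := by
        have : e < 2 := by simpa using he
        omega
      subst this
      convert Sp.zero (r := 1) using 1
      ext a
      show coeff (0 + 2 ^ 1 * a) G = 1 ↔ a = 0
      rw [pow_one, zero_add]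
      by_cases ha : a = 0
      · subst ha
        simp only [mul_zero, hG0]
      · rw [heven a ha]
        simp [ha]
  have hB0 : Sp 1 {i | i ∈ supp G ∧ i ≠ 0} := by
    apply Sp.of_fibres
    intro e he
    have : e = 0 ∨ e = 1 := by
      have : e < 2 := by simpa using he
      omega
    rcases this with rfl | rfl
    · convert Sp.empty (r := 1) using 1
      ext a
      simp only [Set.mem_ofPred_eq, Set.mem_empty_iff_false, iff_false, not_and, not_not]
      intro h
      have h' : coeff (0 + 2 ^ 1 * a) G = 1 := h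
      rw [pow_one, zero_add] at h'
      by_cases ha : a = 0
      · subst ha; simp [pre]
      · rw [heven a ha] at h'
        exact (zero_ne_one h').elim
    · convert hB using 1
      ext a
      show (coeff (1 + 2 ^ 1 * a) G = 1 ∧ pre 1 1 a ≠ 0) ↔ coeff a G = 1
      rw [pow_one, hodd]
      simp [pre]
  have hσ : ∀ i, coeff i (X * G ^ 3) = coeff (i + 1) G + coeff i G := by
    intro i
    have h1 : X * (X * G ^ 3) = G + 1 + X * G := by
      have e1 : X * G ^ 2 = G + 1 := by
        have := add_self_F (1 : PowerSeries F2)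
        have h3 : G = 1 + X * G ^ 2 := by simpa using hG
        linear_combination -h3 - this
      have e2 : X * (X * G ^ 3) = X * G ^ 2 * (X * G) := by ring
      rw [e2, e1, add_mul, one_mul]
      have e3 : G * (X * G) = G + 1 := by rw [← e1]; ring
      rw [e3]
    have h2 := congrArg (coeff (i + 1)) h1
    rw [coeff_succ_X_mul, map_add, map_add, coeff_succ_X_mul, coeff_one] at h2
    simpa using h2
  apply Sp.of_fibres
  intro e he
  have : e = 0 ∨ e = 1 := by
    have : e < 2 := by simpa using he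
    omega
  rcases this with rfl | rfl
  · convert hB0 using 1
    ext a
    show coeff (0 + 2 ^ 1 * a) (X * G ^ 3) = 1 ↔ (coeff a G = 1 ∧ a ≠ 0)
    rw [pow_one, zero_add, hσ, add_comm (2 * a) 1, hodd]
    by_cases ha : a = 0
    · subst ha
      simp only [mul_zero, hG0]
      have : ¬ ((1 : F2) + 1 = 1) := by decide
      simp [this]
    · rw [heven a ha, add_zero]
      simp [ha]
  · convert hB using 1
    ext a
    show coeff (1 + 2 ^ 1 * a) (X * G ^ 3) = 1 ↔ coeff a G = 1
    rw [pow_one, hσ, hodd, show 1 + 2 * a + 1 = 2 * (a + 1) by ring, heven (a + 1) (by omega),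
      zero_add]

/-- For every odd `d`, a sparse involution of depth `d`. -/
theorem sparse_rep {d : ℕ} (hd : Odd d) : ∃ σ c v : PowerSeries F2, InNott σ ∧ comp σ σ = X ∧
    σ = X * (1 + c) ∧ c = X ^ d * v ∧ coeff 0 v = 1 ∧ IsSparseSet (supp σ) := by
  by_cases h1 : d = 1
  · subst h1
    obtain ⟨G, hG0, hG⟩ := exists_G (m := 1) (r := 1) one_pos one_pos
    obtain ⟨v, hv, hv0⟩ := rep_shape hG0 hG (k := 3) (by decide)
    refine ⟨X * G ^ 3, X ^ 1 * v, v, inNott_iff.mpr ⟨_, rfl, coeff_zero_pow_one hG0 3⟩,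
      involution one_pos hG0 hG (by norm_num), hv, rfl, hv0, ?_⟩
    exact (sparse_one hG0 hG).isSparseSet
  · have hd3 : 3 ≤ d := by
      obtain ⟨e, he⟩ := hd
      omega
    have hφ : 0 < Nat.totient d := Nat.totient_pos.mpr (by omega)
    have hcop : Nat.Coprime 2 d := (Nat.coprime_two_left).mpr hd
    -- r + 1 = totient d * (d + 1)
    obtain ⟨r, hr⟩ : ∃ r, r + 1 = Nat.totient d * (d + 1) := by
      have : 0 < Nat.totient d * (d + 1) := by positivity
      exact ⟨Nat.totient d * (d + 1) - 1, by omega⟩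
    have hr0 : 0 < r := by
      have : d + 1 ≤ Nat.totient d * (d + 1) := Nat.le_mul_of_pos_left _ hφ
      omega
    have hdvd : d ∣ 2 ^ (r + 1) - 1 := by
      have h2 : 2 ^ (r + 1) ≡ 1 [MOD d] := by
        rw [hr, pow_mul]
        have := (Nat.ModEq.pow_totient hcop).pow (d + 1)
        simpa using this
      exact (Nat.modEq_iff_dvd' Nat.one_le_two_pow).mp h2.symm
    obtain ⟨k, hk⟩ := hdvd
    have hN : 1 ≤ 2 ^ r := Nat.one_le_two_pow
    have hmk : d * k + 1 = 2 * 2 ^ r := by
      rw [← hk, pow_succ]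
      omega
    have hkN : k < 2 ^ r := by
      have : 3 * k ≤ d * k := Nat.mul_le_mul_right k hd3
      omega
    have hkodd : Odd k := by
      have h3 : Odd (d * k) := by
        refine ⟨2 ^ r - 1, ?_⟩
        omega
      exact (Nat.odd_mul.mp h3).2
    obtain ⟨G, hG0, hG⟩ := exists_G (m := d) (r := r) (by omega) hr0
    obtain ⟨v, hv, hv0⟩ := rep_shape hG0 hG hkodd
    refine ⟨X * G ^ k, X ^ d * v, v, inNott_iff.mpr ⟨_, rfl, coeff_zero_pow_one hG0 k⟩,
      involution (by omega) hG0 hG hmk, hv, rfl, hv0, ?_⟩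
    have := supp_sparse r d k G hd hr0 hG hkN (by omega) k le_rfl 1 (by norm_num)
    rw [pow_one] at this
    exact this.isSparseSet

/-- Every element of order 2 is conjugate to a sparse one. -/
theorem main {τ : PowerSeries F2} (hτ : InNott τ) (hinv : comp τ τ = X) (hne : τ ≠ X) :
    ∃ σ, InNott σ ∧ IsSparse σ ∧ Conjugate τ σ := by
  obtain ⟨w, hw, hw0⟩ := inNott_iff.mp hτ
  -- b = w - 1 = w + 1
  set b : PowerSeries F2 := w - 1 with hb
  have hτb : τ = X * (1 + b) := by rw [hw, hb]; ring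
  have hbne : b ≠ 0 := by
    intro h
    apply hne
    rw [hτb, h, add_zero, mul_one]
  obtain ⟨d, u, hu, hu0⟩ : ∃ d u, b = X ^ d * u ∧ coeff 0 u = 1 := by
    obtain ⟨u, hu⟩ : X ^ (b.order.toNat) ∣ b := X_pow_order_dvd
    have h1 : coeff (b.order.toNat) b ≠ 0 := coeff_order hbne
    refine ⟨_, u, hu, ?_⟩
    generalize b.order.toNat = d at hu h1
    rw [hu, coeff_X_pow_mul', if_pos le_rfl, Nat.sub_self] at h1
    rcases F2_cases (coeff 0 u) with h | h
    · exact (h1 h).elim
    · exact h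
  have hdpos : 0 < d := by
    rcases Nat.eq_zero_or_pos d with h | h
    · exfalso
      rw [h, pow_zero, one_mul] at hu
      have : coeff 0 b = 0 := by
        rw [hb, map_sub, hw0]; simp
      rw [hu, hu0] at this
      exact one_ne_zero this
    · exact h
  have hodd := depth_odd hτ hinv hτb hu hu0 hdpos
  obtain ⟨σ, c, v, h1, h2, h3, h4, h5, h6⟩ := sparse_rep hodd
  exact ⟨σ, h1, h6, conj_of_depth hτ hinv hτb hu hu0 h1 h2 h3 h4 h5 hodd⟩

end Pool.Agent.Hhelper87.Nott
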